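import Pool.Agent.U265.GM.Gen

/-!
# Metric theorems for countable families of sparse sets (helper265)

For every `i` in a countable set and `ε > 0` let `B i ε` be a set of integer vectors with at most `X ^ (ε + e)` elements up to
`X`. For all `v` but a set of Hausdorff dimension zero: for every `i` there is `ε > 0` such that for all large `m` there is no
element of `B i ε` near `w_m v`.
-/

set_option autoImplicit false

namespace Pool.Agent.U265.GM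

open Finset Filter Topology
open scoped ENNReal

theorem fam_dil {ι : Type*} [Countable ι] {k : ℕ} (B : ι → ℝ → Set (Fin k → ℤ))
    (hB : ∀ i, ∀ ε : ℝ, 0 < ε → Sparse (B i ε) ε) {κ τ : ℝ} (hκ : κ < 1) (hτ : 0 ≤ τ)
    (w : ℕ → ℝ) (hw : ∀ n, 1 ≤ w n) (hsum : ∀ t : ℝ, τ < t → Summable fun n => w n ^ (-t)) :
    dimH {v : Fin k → ℝ | ¬ ∀ i, ∃ ε : ℝ, 0 < ε ∧ ¬ Hit (B i ε) κ w (fun n j => w n * v j)} ≤
      ENNReal.ofReal (τ / (1 - κ)) := by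
  have hκ' : 0 < 1 - κ := by linarith
  refine Pool.Agent.N84.MD.dim_le_of_forall (div_nonneg hτ hκ'.le) fun D hD => ?_
  rw [div_lt_iff₀ hκ'] at hD
  have hε : 0 < D * (1 - κ) - τ := by linarith
  have hsub : {v : Fin k → ℝ | ¬ ∀ i, ∃ ε : ℝ, 0 < ε ∧ ¬ Hit (B i ε) κ w (fun n j => w n * v j)} ⊆
      ⋃ i, {v : Fin k → ℝ | Hit (B i (D * (1 - κ) - τ)) κ w (fun n j => w n * v j)} := by
    intro v hv
    rw [Set.mem_ofPred_eq] at hv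
    push Not at hv
    obtain ⟨i, hi⟩ := hv
    rw [Set.mem_iUnion]
    exact ⟨i, hi _ hε⟩
  refine (dimH_mono hsub).trans ?_
  rw [dimH_iUnion]
  refine iSup_le fun i => ?_
  have h1 := gen_dil (B i (D * (1 - κ) - τ)) hε.le (hB i _ hε) hκ hτ w hw hsum
  rwa [sub_add_cancel, mul_div_assoc, div_self hκ'.ne', mul_one] at h1

theorem fam_zero {ι : Type*} [Countable ι] {k : ℕ} (B : ι → ℝ → Set (Fin k → ℤ))
    (hB : ∀ i, ∀ ε : ℝ, 0 < ε → Sparse (B i ε) ε)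
    (w : ℕ → ℝ) (hw : ∀ n, 1 ≤ w n) (hsum : ∀ t : ℝ, 0 < t → Summable fun n => w n ^ (-t)) :
    dimH {v : Fin k → ℝ | ¬ ∀ κ : ℝ, κ < 1 → ∀ i, ∃ ε : ℝ, 0 < ε ∧ ¬ Hit (B i ε) κ w (fun n j => w n * v j)} = 0 := by
  refine le_antisymm ?_ bot_le
  have hsub : {v : Fin k → ℝ | ¬ ∀ κ : ℝ, κ < 1 → ∀ i, ∃ ε : ℝ, 0 < ε ∧ ¬ Hit (B i ε) κ w (fun n j => w n * v j)} ⊆
      ⋃ l : ℕ, {v : Fin k → ℝ | ¬ ∀ i, ∃ ε : ℝ, 0 < ε ∧ ¬ Hit (B i ε) (1 - 1 / ((l : ℝ) + 1)) w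
        (fun n j => w n * v j)} := by
    intro v hv
    rw [Set.mem_ofPred_eq] at hv
    push Not at hv
    obtain ⟨κ, hκ, i, hi⟩ := hv
    obtain ⟨l, hl⟩ := exists_kap κ hκ
    rw [Set.mem_iUnion]
    refine ⟨l, fun h => ?_⟩
    obtain ⟨ε, hε, h1⟩ := h i
    refine h1 (Frequently.mono (hi ε hε) ?_)
    rintro n ⟨m, hm1, hm2⟩
    exact ⟨m, fun j => (hm1 j).trans (Real.rpow_le_rpow_of_exponent_le (hw n) hl), hm2⟩
  refine (dimH_mono hsub).trans ?_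
  rw [dimH_iUnion]
  refine iSup_le fun l => ?_
  have hl0 : (0 : ℝ) < 1 / ((l : ℝ) + 1) := by positivity
  have h1 := fam_dil B hB (κ := 1 - 1 / ((l : ℝ) + 1)) (τ := 0) (by linarith) le_rfl w hw hsum
  simpa using h1

theorem fam_pow {ι : Type*} [Countable ι] (B : ι → ℝ → Set (Fin 1 → ℤ))
    (hB : ∀ i, ∀ ε : ℝ, 0 < ε → Sparse (B i ε) ε) (Ξ : Set ℝ) (hΞ : Ξ.Countable) (hΞ0 : ∀ ξ ∈ Ξ, ξ ≠ 0)
    (w : ℕ → ℝ) (hw : ∀ n, 1 ≤ w n) (hlim : Tendsto (fun n : ℕ => w n / Real.log n) atTop atTop) :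
    dimH {α : ℝ | 1 < α ∧ ¬ ∀ ξ ∈ Ξ, ∀ κ : ℝ, κ < 1 → ∀ i, ∃ ε : ℝ, 0 < ε ∧
      ¬ Hit (B i ε) κ (fun n => α ^ w n) (fun n _ => ξ * α ^ w n)} = 0 := by
  refine le_antisymm ?_ bot_le
  have hgoal : dimH {α : ℝ | 1 < α ∧ ¬ ∀ ξ ∈ Ξ, ∀ κ : ℝ, κ < 1 → ∀ i, ∃ ε : ℝ, 0 < ε ∧
      ¬ Hit (B i ε) κ (fun n => α ^ w n) (fun n _ => ξ * α ^ w n)} ≤ ENNReal.ofReal 0 := by
    refine Pool.Agent.N84.MD.dim_le_of_forall le_rfl fun D hD0 => ?_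
    have hsub : {α : ℝ | 1 < α ∧ ¬ ∀ ξ ∈ Ξ, ∀ κ : ℝ, κ < 1 → ∀ i, ∃ ε : ℝ, 0 < ε ∧
        ¬ Hit (B i ε) κ (fun n => α ^ w n) (fun n _ => ξ * α ^ w n)} ⊆
        ⋃ ξ ∈ Ξ, ⋃ l : ℕ, ⋃ i, {α : ℝ | 1 < α ∧ Hit (B i (D * (1 / ((l : ℝ) + 1)))) (1 - 1 / ((l : ℝ) + 1))
          (fun n => α ^ w n) (fun n _ => ξ * α ^ w n)} := by
      rintro α ⟨hα, hx⟩
      push Not at hx
      obtain ⟨ξ, hξ, κ, hκ, i, hx⟩ := hx
      obtain ⟨l, hl⟩ := exists_kap κ hκ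
      rw [Set.mem_iUnion₂]
      refine ⟨ξ, hξ, ?_⟩
      rw [Set.mem_iUnion]
      refine ⟨l, ?_⟩
      rw [Set.mem_iUnion]
      have hl0 : (0 : ℝ) < 1 / ((l : ℝ) + 1) := by positivity
      refine ⟨i, hα, Frequently.mono (hx _ (mul_pos hD0 hl0)) ?_⟩
      rintro n ⟨m, hm1, hm2⟩
      refine ⟨m, fun j => (hm1 j).trans (Real.rpow_le_rpow_of_exponent_le ?_ hl), hm2⟩
      exact Real.one_le_rpow hα.le (by linarith [hw n])
    refine (dimH_mono hsub).trans ?_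
    rw [dimH_bUnion hΞ]
    refine iSup₂_le fun ξ hξ => ?_
    rw [dimH_iUnion]
    refine iSup_le fun l => ?_
    rw [dimH_iUnion]
    refine iSup_le fun i => ?_
    have hl0 : (0 : ℝ) < 1 / ((l : ℝ) + 1) := by positivity
    have hl1 : 1 / ((l : ℝ) + 1) ≤ 1 := by
      rw [div_le_one (by positivity)]
      linarith [(Nat.cast_nonneg l : (0 : ℝ) ≤ l)]
    exact gen_pow (B i (D * (1 / ((l : ℝ) + 1)))) (κ := 1 - 1 / ((l : ℝ) + 1)) (D := D) (by positivity)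
      (hB i _ (by positivity)) (by linarith) (by linarith) hD0.le (by rw [sub_sub_cancel]) ξ (hΞ0 ξ hξ) w hw hlim
  simpa using hgoal

lemma finite_rat (B : ℕ) (P : Set ℚ) : {t : ℚ | |t.num| ≤ B ∧ t.den ≤ B ∧ t ∈ P}.Finite := by
  refine Set.Finite.of_finite_image (f := fun t : ℚ => (t.num, t.den)) ?_ ?_
  · refine ((Set.finite_Icc (-(B : ℤ)) B).prod (Set.finite_Icc 0 B)).subset ?_
    rintro _ ⟨t, ⟨h1, h2, -⟩, rfl⟩
    exact ⟨⟨(abs_le.1 h1).1, (abs_le.1 h1).2⟩, ⟨Nat.zero_le _, h2⟩⟩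
  · intro t _ t' _ h
    rw [Prod.mk.injEq] at h
    exact Rat.ext h.1 h.2

/-- the pairs of coprime integers whose quotient is in `P` -/
def Pairs (P : Set ℚ) : Set (Fin 2 → ℤ) := {m | IsCoprime (m 0) (m 1) ∧ m 1 ≠ 0 ∧ ((m 0 : ℚ) / (m 1 : ℚ)) ∈ P}

/-- the integers of `P` -/
def Ones (P : Set ℤ) : Set (Fin 1 → ℤ) := {m | m 0 ∈ P}

lemma coprime_inj {a b c d : ℤ} (h1 : IsCoprime a b) (h2 : IsCoprime c d) (hb : b ≠ 0)
    (hd : d ≠ 0) (h : (a : ℚ) / b = (c : ℚ) / d) (hs : 0 < b ↔ 0 < d) : a = c ∧ b = d := by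
  rw [div_eq_div_iff (by exact_mod_cast hb) (by exact_mod_cast hd)] at h
  have h3 : a * d = c * b := by exact_mod_cast h
  have h4 : b ∣ d := h1.symm.dvd_of_dvd_mul_left (by rw [h3]; exact dvd_mul_left _ _)
  have h5 : d ∣ b := h2.symm.dvd_of_dvd_mul_left (by rw [← h3]; exact dvd_mul_left _ _)
  have h6 : b = d := by
    rcases Int.natAbs_eq_natAbs_iff.1 (Nat.dvd_antisymm (Int.natAbs_dvd_natAbs.2 h4) (Int.natAbs_dvd_natAbs.2 h5)) with h | h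
    · exact h
    · omega
  refine ⟨?_, h6⟩
  rw [h6] at h3
  exact mul_right_cancel₀ hd h3

lemma num_den_le {x y : ℤ} (hy : y ≠ 0) {X : ℕ} (hxX : |x| ≤ X) (hyX : |y| ≤ X) :
    |((x : ℚ) / y).num| ≤ X ∧ ((x : ℚ) / y).den ≤ X := by
  have hx' : x.natAbs ≤ X := by
    rw [Int.abs_eq_natAbs] at hxX
    exact_mod_cast hxX
  have hy' : y.natAbs ≤ X := by
    rw [Int.abs_eq_natAbs] at hyX
    exact_mod_cast hyX
  have h3 : ((x : ℚ) / y).num.natAbs ≤ x.natAbs := by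
    rcases eq_or_ne x 0 with rfl | hx
    · simp
    · have h6 := Rat.num_dvd x hy
      rw [Rat.divInt_eq_div] at h6
      exact Nat.le_of_dvd (Int.natAbs_pos.2 hx) (Int.natAbs_dvd_natAbs.2 h6)
  have h4 : ((x : ℚ) / y).den ≤ y.natAbs := by
    refine Nat.le_of_dvd (Int.natAbs_pos.2 hy) ?_
    have h6 := Rat.den_dvd x y
    rw [Rat.divInt_eq_div] at h6
    have h7 := Int.natAbs_dvd_natAbs.2 h6
    rwa [Int.natAbs_natCast] at h7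
  refine ⟨?_, h4.trans hy'⟩
  rw [Int.abs_eq_natAbs]
  exact_mod_cast h3.trans hx'

theorem sparse_pairs {P : Set ℚ} {ε : ℝ}
    (h : ∃ C : ℝ, ∀ B : ℕ, 1 ≤ B → ({t : ℚ | |t.num| ≤ B ∧ t.den ≤ B ∧ t ∈ P}.ncard : ℝ) ≤ C * (B : ℝ) ^ ε) :
    Sparse (Pairs P) ε := by
  classical
  obtain ⟨C, hC⟩ := h
  intro e he
  refine ⟨2 * max C 0, fun X hX T hT => ?_⟩
  have hX1 : (1 : ℝ) ≤ X := by exact_mod_cast hX
  have hcard := hC X hX
  have hfin := finite_rat X P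
  set E := hfin.toFinset with hE
  have h1 : T.card ≤ (E ×ˢ (univ : Finset Bool)).card := by
    refine card_le_card_of_injOn (fun m => ((m 0 : ℚ) / (m 1 : ℚ), decide (0 < m 1))) ?_ ?_
    · intro m hm
      obtain ⟨⟨h2, h3, h4⟩, h5⟩ := hT m hm
      obtain ⟨h6, h7⟩ := num_den_le h3 (h5 0) (h5 1)
      rw [coe_product, Set.mem_prod]
      exact ⟨by rw [mem_coe, hE, Set.Finite.mem_toFinset]; exact ⟨h6, h7, h4⟩, mem_coe.2 (mem_univ _)⟩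
    · intro m hm m' hm' heq
      rw [Prod.mk.injEq] at heq
      obtain ⟨h4, h5⟩ := heq
      rw [decide_eq_decide] at h5
      obtain ⟨h6, h7⟩ := coprime_inj (hT m hm).1.1 (hT m' hm').1.1 (hT m hm).1.2.1 (hT m' hm').1.2.1 h4 h5
      funext i
      fin_cases i
      · exact h6
      · exact h7
  rw [card_product, card_univ, Fintype.card_bool] at h1
  rw [Set.ncard_eq_toFinset_card _ hfin] at hcard
  have h3 : (T.card : ℝ) ≤ E.card * 2 := by exact_mod_cast h1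
  have h5 : C * (X : ℝ) ^ ε ≤ max C 0 * (X : ℝ) ^ (ε + e) := by
    calc C * (X : ℝ) ^ ε ≤ max C 0 * (X : ℝ) ^ ε :=
          mul_le_mul_of_nonneg_right (le_max_left _ _) (Real.rpow_nonneg (by positivity) _)
      _ ≤ _ := mul_le_mul_of_nonneg_left (Real.rpow_le_rpow_of_exponent_le hX1 (by linarith)) (le_max_right _ _)
  linarith

theorem sparse_ones {P : Set ℤ} {ε : ℝ}
    (h : ∃ C : ℝ, ∀ B : ℕ, 1 ≤ B → ({t : ℤ | |t| ≤ B ∧ t ∈ P}.ncard : ℝ) ≤ C * (B : ℝ) ^ ε) :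
    Sparse (Ones P) ε := by
  classical
  obtain ⟨C, hC⟩ := h
  intro e he
  refine ⟨max C 0, fun X hX T hT => ?_⟩
  have hX1 : (1 : ℝ) ≤ X := by exact_mod_cast hX
  have hcard := hC X hX
  have hfin : {t : ℤ | |t| ≤ X ∧ t ∈ P}.Finite :=
    (Set.finite_Icc (-(X : ℤ)) X).subset fun t ht => ⟨(abs_le.1 ht.1).1, (abs_le.1 ht.1).2⟩
  have h1 : T.card ≤ hfin.toFinset.card := by
    refine card_le_card_of_injOn (fun m => m 0) ?_ ?_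
    · intro m hm
      rw [mem_coe, Set.Finite.mem_toFinset]
      exact ⟨(hT m hm).2 0, (hT m hm).1⟩
    · intro m hm m' hm' heq
      funext i
      rw [Subsingleton.elim i 0]
      exact heq
  rw [Set.ncard_eq_toFinset_card _ hfin] at hcard
  have h3 : (T.card : ℝ) ≤ hfin.toFinset.card := by exact_mod_cast h1
  have h5 : C * (X : ℝ) ^ ε ≤ max C 0 * (X : ℝ) ^ (ε + e) := by
    calc C * (X : ℝ) ^ ε ≤ max C 0 * (X : ℝ) ^ ε :=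
          mul_le_mul_of_nonneg_right (le_max_left _ _) (Real.rpow_nonneg (by positivity) _)
      _ ≤ _ := mul_le_mul_of_nonneg_left (Real.rpow_le_rpow_of_exponent_le hX1 (by linarith)) (le_max_right _ _)
  linarith

theorem countable_poly : Countable (Polynomial ℤ) := by
  refine Function.Injective.countable (f := fun p : Polynomial ℤ => (List.range (p.natDegree + 1)).map p.coeff) ?_
  intro p q hpq
  have h1 := congrArg List.length hpq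
  simp only [List.length_map, List.length_range] at h1
  ext i
  rcases le_or_gt i p.natDegree with h2 | h2
  · have h3 := congrArg (fun l => l[i]?) hpq
    simp only [List.getElem?_map] at h3
    rw [List.getElem?_range (by omega), List.getElem?_range (by omega)] at h3
    simpa using h3
  · rw [Polynomial.coeff_eq_zero_of_natDegree_lt h2, Polynomial.coeff_eq_zero_of_natDegree_lt (by omega)]

/-- at most `C B ^ ε` rational numbers of height at most `B` -/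
def FewRat (P : Set ℚ) (ε : ℝ) : Prop :=
  ∃ C : ℝ, ∀ B : ℕ, 1 ≤ B → ({t : ℚ | |t.num| ≤ B ∧ t.den ≤ B ∧ t ∈ P}.ncard : ℝ) ≤ C * (B : ℝ) ^ ε

/-- at most `C B ^ ε` integers up to `B` -/
def FewInt (P : Set ℤ) (ε : ℝ) : Prop :=
  ∃ C : ℝ, ∀ B : ℕ, 1 ≤ B → ({t : ℤ | |t| ≤ B ∧ t ∈ P}.ncard : ℝ) ≤ C * (B : ℝ) ^ ε

/-- the quotients of all coprime integers near the `W_m v` are in `P` -/
def NearRat (P : Set ℚ) (κ : ℝ) (W : ℕ → ℝ) (v : Fin 2 → ℝ) : Prop :=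
  ∀ᶠ m : ℕ in atTop, ∀ x y : ℤ, IsCoprime x y → y ≠ 0 → |(x : ℝ) - W m * v 0| ≤ W m ^ κ →
    |(y : ℝ) - W m * v 1| ≤ W m ^ κ → ((x : ℚ) / y) ∈ P

/-- all integers near the `X_m` are in `P` -/
def NearInt (P : Set ℤ) (κ : ℝ) (W X : ℕ → ℝ) : Prop :=
  ∀ᶠ m : ℕ in atTop, ∀ x : ℤ, |(x : ℝ) - X m| ≤ W m ^ κ → x ∈ P

lemma near_of_not_hit {P : Set ℚ} {κ : ℝ} {w : ℕ → ℝ} {v : Fin 2 → ℝ}
    (h : ¬ Hit (Pairs Pᶜ) κ w (fun n j => w n * v j)) : NearRat P κ w v := by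
  unfold Hit at h
  rw [not_frequently] at h
  refine h.mono fun m hm x y h1 h2 h3 h4 => ?_
  by_contra h5
  refine hm ⟨![x, y], fun i => ?_, h1, h2, h5⟩
  fin_cases i
  · exact h3
  · exact h4

lemma int_of_not_hit {P : Set ℤ} {κ : ℝ} {w X : ℕ → ℝ}
    (h : ¬ Hit (Ones Pᶜ) κ w (fun n _ => X n)) : NearInt P κ w X := by
  unfold Hit at h
  rw [not_frequently] at h
  refine h.mono fun m hm x h3 => ?_
  by_contra h5
  exact hm ⟨fun _ => x, fun i => h3, h5⟩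

theorem near_dil {P : Set ℚ} {ε κ τ : ℝ} (hε : 0 ≤ ε) (h : FewRat Pᶜ ε) (hκ : κ < 1) (hτ : 0 ≤ τ)
    (w : ℕ → ℝ) (hw : ∀ n, 1 ≤ w n) (hsum : ∀ t : ℝ, τ < t → Summable fun n => w n ^ (-t)) :
    dimH {v : Fin 2 → ℝ | ¬ NearRat P κ w v} ≤ ENNReal.ofReal ((ε + τ) / (1 - κ)) := by
  refine le_trans (dimH_mono ?_) (gen_dil (Pairs Pᶜ) hε (sparse_pairs h) hκ hτ w hw hsum)
  intro v hv
  by_contra h1
  exact hv (near_of_not_hit h1)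

theorem near_zero {ι : Type*} [Countable ι] (P : ι → ℝ → Set ℚ) (h : ∀ i, ∀ ε : ℝ, 0 < ε → FewRat (P i ε)ᶜ ε)
    (w : ℕ → ℝ) (hw : ∀ n, 1 ≤ w n) (hsum : ∀ t : ℝ, 0 < t → Summable fun n => w n ^ (-t)) :
    dimH {v : Fin 2 → ℝ | ¬ ∀ κ : ℝ, κ < 1 → ∀ i, ∃ ε : ℝ, 0 < ε ∧ NearRat (P i ε) κ w v} = 0 := by
  refine le_antisymm ?_ bot_le
  refine le_trans (dimH_mono ?_) (fam_zero (fun i ε => Pairs (P i ε)ᶜ) (fun i ε hε => sparse_pairs (h i ε hε)) w hw hsum).le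
  intro v hv h1
  refine hv fun κ hκ i => ?_
  obtain ⟨ε, hε, h2⟩ := h1 κ hκ i
  exact ⟨ε, hε, near_of_not_hit h2⟩

theorem near_int_zero {ι : Type*} [Countable ι] (P : ι → ℝ → Set ℤ) (h : ∀ i, ∀ ε : ℝ, 0 < ε → FewInt (P i ε)ᶜ ε)
    (w : ℕ → ℝ) (hw : ∀ n, 1 ≤ w n) (hsum : ∀ t : ℝ, 0 < t → Summable fun n => w n ^ (-t)) :
    dimH {a : ℝ | ¬ ∀ κ : ℝ, κ < 1 → ∀ i, ∃ ε : ℝ, 0 < ε ∧ NearInt (P i ε) κ w (fun m => w m * a)} = 0 := by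
  refine le_antisymm ?_ bot_le
  have hiso : Isometry (fun y : ℝ => (fun _ : Fin 1 => y)) := by
    refine Isometry.of_dist_eq fun a b => ?_
    rw [dist_pi_const]
  rw [← hiso.dimH_image]
  refine le_trans (dimH_mono ?_) (fam_zero (fun i ε => Ones (P i ε)ᶜ) (fun i ε hε => sparse_ones (h i ε hε)) w hw hsum).le
  rintro _ ⟨a, ha, rfl⟩ h1
  refine ha fun κ hκ i => ?_
  obtain ⟨ε, hε, h2⟩ := h1 κ hκ i
  exact ⟨ε, hε, int_of_not_hit h2⟩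

theorem near_pow {ι : Type*} [Countable ι] (P : ι → ℝ → Set ℤ) (h : ∀ i, ∀ ε : ℝ, 0 < ε → FewInt (P i ε)ᶜ ε)
    (Ξ : Set ℝ) (hΞ : Ξ.Countable) (hΞ0 : ∀ ξ ∈ Ξ, ξ ≠ 0)
    (w : ℕ → ℝ) (hw : ∀ n, 1 ≤ w n) (hlim : Tendsto (fun n : ℕ => w n / Real.log n) atTop atTop) :
    dimH {α : ℝ | 1 < α ∧ ¬ ∀ ξ ∈ Ξ, ∀ κ : ℝ, κ < 1 → ∀ i, ∃ ε : ℝ, 0 < ε ∧
      NearInt (P i ε) κ (fun m => α ^ w m) (fun m => ξ * α ^ w m)} = 0 := by
  refine le_antisymm ?_ bot_le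
  refine le_trans (dimH_mono ?_)
    (fam_pow (fun i ε => Ones (P i ε)ᶜ) (fun i ε hε => sparse_ones (h i ε hε)) Ξ hΞ hΞ0 w hw hlim).le
  rintro α ⟨hα, hv⟩
  refine ⟨hα, fun h1 => hv fun ξ hξ κ hκ i => ?_⟩
  obtain ⟨ε, hε, h2⟩ := h1 ξ hξ κ hκ i
  exact ⟨ε, hε, int_of_not_hit h2⟩

end Pool.Agent.U265.GM
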