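import Pool.Agent.U265.GM.Proj

/-!
# Countability of number fields and polynomials (helper265)
-/

set_option autoImplicit false

namespace Pool.Agent.U265.GM

open NumberField

theorem countable_field (K : Type) [Field K] [NumberField K] : Countable K :=
  (Module.finBasis ℚ K).equivFun.toEquiv.injective.countable

theorem countable_int (K : Type) [Field K] [NumberField K] : Countable (𝓞 K) := by
  have := countable_field K
  exact Function.Injective.countable (f := fun x : 𝓞 K => (x : K)) (fun x y h => by
    exact RingOfIntegers.ext h)

theorem countable_mv (σ R : Type) [Countable σ] [CommRing R] [Countable R] : Countable (MvPolynomial σ R) := by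
  classical
  refine Function.Injective.countable
    (f := fun p : MvPolynomial σ R => (Finsupp.onFinset p.support (fun s => p.coeff s) (fun s hs =>
      MvPolynomial.mem_support_iff.2 hs) : (σ →₀ ℕ) →₀ R)) ?_
  intro p q h
  ext s
  exact DFunLike.congr_fun h s

end Pool.Agent.U265.GM
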