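import Pool.Agent.U265.MS.Dim

/-!
# Metric theorems for a sparse set of integer vectors (helper265)

If a set of integer vectors has at most `X ^ (s + e)` elements up to `X` then the vectors `x` for which it has an element
near infinitely many of the `w_n x` form a set of Hausdorff dimension at most `(s + τ) / (1 - κ)`; similarly for
the powers of a real number.
-/

set_option autoImplicit false

namespace Pool.Agent.U265.GM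

open Finset Filter Topology Pool.Agent.U265.MS
open scoped ENNReal

/-- at most `K X ^ (s + e)` elements up to `X`, for every `e > 0` -/
def Sparse {k : ℕ} (B : Set (Fin k → ℤ)) (s : ℝ) : Prop := ∀ e : ℝ, 0 < e → ∃ K : ℝ, ∀ X : ℕ, 1 ≤ X →
  ∀ T : Finset (Fin k → ℤ), (∀ d ∈ T, d ∈ B ∧ ∀ i, |d i| ≤ X) → (T.card : ℝ) ≤ K * (X : ℝ) ^ (s + e)

/-- infinitely many vectors of `B` near the `w_n x` -/
def Hit {k : ℕ} (B : Set (Fin k → ℤ)) (κ : ℝ) (W : ℕ → ℝ) (x : ℕ → Fin k → ℝ) : Prop :=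
  ∃ᶠ n : ℕ in atTop, ∃ m : Fin k → ℤ, (∀ i, |(m i : ℝ) - x n i| ≤ W n ^ κ) ∧ m ∈ B

theorem gen_dil {k : ℕ} (B : Set (Fin k → ℤ)) {s κ τ : ℝ} (hs : 0 ≤ s) (hB : Sparse B s) (hκ : κ < 1) (hτ : 0 ≤ τ)
    (w : ℕ → ℝ) (hw : ∀ n, 1 ≤ w n) (hsum : ∀ t : ℝ, τ < t → Summable fun n => w n ^ (-t)) :
    dimH {x : Fin k → ℝ | Hit B κ w (fun n i => w n * x i)} ≤ ENNReal.ofReal ((s + τ) / (1 - κ)) := by
  have hκ' : 0 < 1 - κ := by linarith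
  refine Pool.Agent.N84.MD.dim_le_of_forall (div_nonneg (by linarith) hκ'.le) fun D hD => ?_
  rw [div_lt_iff₀ hκ'] at hD
  have hD0 : 0 < D := by
    by_contra h
    push Not at h
    nlinarith
  obtain ⟨e, he, heD⟩ : ∃ e : ℝ, 0 < e ∧ s + e + τ < D * (1 - κ) :=
    ⟨(D * (1 - κ) - (s + τ)) / 2, by linarith, by linarith⟩
  obtain ⟨K, hK⟩ := hB e he
  have hsub : {x : Fin k → ℝ | Hit B κ w (fun n i => w n * x i)} ⊆
      ⋃ R : ℕ, {x : Fin k → ℝ | (∀ i, |x i| ≤ R) ∧ ∃ᶠ n : ℕ in atTop, ∃ m : Fin k → ℤ,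
        (∀ i, |(m i : ℝ) - w n * x i| ≤ w n ^ κ) ∧ m ∈ (fun _ : ℕ => B) ⌈((R : ℝ) + 1) * w n⌉₊} := by
    intro x hx
    rw [Set.mem_iUnion]
    obtain ⟨R, hR⟩ : ∃ R : ℕ, ∀ i, |x i| ≤ R := by
      obtain ⟨R, hR⟩ := exists_nat_ge (∑ i, |x i|)
      exact ⟨R, fun i => (single_le_sum (f := fun i => |x i|) (fun i _ => abs_nonneg _) (mem_univ i)).trans hR⟩
    exact ⟨R, hR, hx⟩
  refine (dimH_mono hsub).trans ?_
  rw [dimH_iUnion]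
  refine iSup_le fun R => ?_
  refine dil_dim (fun _ => B) (s := s + e) (τ := τ) (K := max K 0) (by linarith) hκ (le_max_right _ _) hD0
    heD ?_ w hw hsum R
  intro X hX T hT
  refine (hK X hX T fun m hm => ⟨(hT m hm).2, (hT m hm).1⟩).trans ?_
  exact mul_le_mul_of_nonneg_right (le_max_left _ _) (Real.rpow_nonneg (Nat.cast_nonneg _) _)

theorem gen_pow (B : Set (Fin 1 → ℤ)) {κ D s : ℝ} (hs : 0 ≤ s) (hB : Sparse B s) (hκ0 : 0 ≤ κ) (hκ : κ < 1) (hD0 : 0 ≤ D)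
    (hD : s ≤ D * (1 - κ)) (ξ : ℝ) (hξ : ξ ≠ 0)
    (w : ℕ → ℝ) (hw : ∀ n, 1 ≤ w n) (hlim : Tendsto (fun n : ℕ => w n / Real.log n) atTop atTop) :
    dimH {α : ℝ | 1 < α ∧ Hit B κ (fun n => α ^ w n) (fun n _ => ξ * α ^ w n)} ≤ ENNReal.ofReal D := by
  have hκ' : 0 < 1 - κ := by linarith
  refine Pool.Agent.N84.MD.dim_le_of_forall hD0 fun D' hD' => ?_
  have hD'0 : 0 < D' := by linarith
  have hsD : s < D' * (1 - κ) := by nlinarith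
  obtain ⟨e, he, heD⟩ : ∃ e : ℝ, 0 < e ∧ s + e < D' * (1 - κ) :=
    ⟨(D' * (1 - κ) - s) / 2, by linarith, by linarith⟩
  obtain ⟨K, hK⟩ := hB e he
  have hS0 : 0 < s + e + κ * D' := by positivity
  have hSD : s + e + κ * D' < D' := by linarith
  obtain ⟨g, hg1, hg2⟩ := exists_between (show 1 < D' / (s + e + κ * D') by rwa [one_lt_div hS0])
  rw [lt_div_iff₀ hS0] at hg2
  have hg0 : 0 < g := by linarith
  have hsub : {α : ℝ | 1 < α ∧ Hit B κ (fun n => α ^ w n) (fun n _ => ξ * α ^ w n)} ⊆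
      ⋃ l : ℤ, {α : ℝ | (Real.exp (g ^ l) ≤ α ∧ α ≤ Real.exp (g ^ (l + 1))) ∧
        ∃ᶠ n : ℕ in atTop, ∃ m : Fin 1 → ℤ,
        (∀ i, |(m i : ℝ) - ξ * α ^ w n| ≤ (Real.exp (g ^ (l + 1)) ^ w n) ^ κ) ∧
          m ∈ (fun _ : ℕ => B) ⌈(|ξ| + 1) * Real.exp (g ^ (l + 1)) ^ w n⌉₊} := by
    rintro α ⟨hα, hx⟩
    rw [Set.mem_iUnion]
    have hlα : 0 < Real.log α := Real.log_pos hα
    obtain ⟨l, hl1, hl2⟩ := exists_mem_Ico_zpow hlα hg1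
    have hα0 : 0 < α := by linarith
    have hu : Real.exp (g ^ l) ≤ α := by rwa [← Real.le_log_iff_exp_le hα0]
    have hv : α ≤ Real.exp (g ^ (l + 1)) := by
      rw [← Real.log_le_iff_le_exp hα0]
      exact hl2.le
    refine ⟨l, ⟨hu, hv⟩, ?_⟩
    refine Frequently.mono hx ?_
    rintro n ⟨m, hm1, hm2⟩
    refine ⟨m, fun i => (hm1 i).trans ?_, hm2⟩
    have hwn := hw n
    have hWv : α ^ w n ≤ Real.exp (g ^ (l + 1)) ^ w n := Real.rpow_le_rpow hα0.le hv (by linarith)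
    exact Real.rpow_le_rpow (Real.rpow_nonneg hα0.le _) hWv hκ0
  refine (dimH_mono hsub).trans ?_
  rw [dimH_iUnion]
  refine iSup_le fun l => ?_
  have hgl : 0 < g ^ l := zpow_pos hg0 l
  refine pow_dim (fun _ => B) (s := s + e) (κ := κ) (K := max K 0) (by linarith) hκ0 (le_max_right _ _) hD'0
    ?_ hκ.le (Real.one_lt_exp_iff.2 hgl) ?_ ?_ hξ w hw hlim
  · intro X hX T hT
    refine (hK X hX T fun m hm => ⟨(hT m hm).2, (hT m hm).1⟩).trans ?_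
    exact mul_le_mul_of_nonneg_right (le_max_left _ _) (Real.rpow_nonneg (Nat.cast_nonneg _) _)
  · refine Real.exp_le_exp.2 ?_
    rw [zpow_add_one₀ hg0.ne']
    nlinarith
  · rw [Real.log_exp, Real.log_exp, zpow_add_one₀ hg0.ne']
    nlinarith

/-- one number -/
theorem gen_dil_one (B : Set (Fin 1 → ℤ)) {s κ τ : ℝ} (hs : 0 ≤ s) (hB : Sparse B s) (hκ : κ < 1) (hτ : 0 ≤ τ)
    (w : ℕ → ℝ) (hw : ∀ n, 1 ≤ w n) (hsum : ∀ t : ℝ, τ < t → Summable fun n => w n ^ (-t)) :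
    dimH {x : ℝ | Hit B κ w (fun n _ => w n * x)} ≤ ENNReal.ofReal ((s + τ) / (1 - κ)) := by
  have hiso : Isometry (fun y : ℝ => (fun _ : Fin 1 => y)) := by
    refine Isometry.of_dist_eq fun a b => ?_
    rw [dist_pi_const]
  rw [← hiso.dimH_image]
  refine (dimH_mono ?_).trans (gen_dil B hs hB hκ hτ w hw hsum)
  rintro _ ⟨x, hx, rfl⟩
  exact hx

lemma exists_kap (κ : ℝ) (hκ : κ < 1) : ∃ j : ℕ, κ ≤ 1 - 1 / ((j : ℝ) + 1) := by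
  obtain ⟨j, hj⟩ := exists_nat_one_div_lt (show 0 < 1 - κ by linarith)
  exact ⟨j, by linarith⟩

lemma exists_eps (ε : ℝ) (hε : 0 < ε) : ∃ j : ℕ, 1 / ((j : ℝ) + 1) ≤ ε := by
  obtain ⟨j, hj⟩ := exists_nat_one_div_lt hε
  exact ⟨j, hj.le⟩

/-- all exponents at the same time: if for all `ε > 0` and `D > 0` the numbers without the property `G ε a` for a
suitable `a` are sparse, then the exceptional set has dimension zero -/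
theorem zero_dil (G : ℝ → ℝ → Set (Fin 1 → ℤ))
    (hG : ∀ ε : ℝ, 0 < ε → ∀ s : ℝ, 0 < s → ∃ a : ℝ, Sparse (G ε a)ᶜ s)
    (hmono : ∀ ε ε' a : ℝ, ε ≤ ε' → G ε a ⊆ G ε' a)
    (w : ℕ → ℝ) (hw : ∀ n, 1 ≤ w n) (hsum : ∀ t : ℝ, 0 < t → Summable fun n => w n ^ (-t)) :
    dimH {x : ℝ | ¬ ∀ κ : ℝ, κ < 1 → ∀ ε : ℝ, 0 < ε → ∃ a : ℝ, ¬ Hit (G ε a)ᶜ κ w (fun n _ => w n * x)} = 0 := by
  refine le_antisymm ?_ bot_le
  have hgoal : dimH {x : ℝ | ¬ ∀ κ : ℝ, κ < 1 → ∀ ε : ℝ, 0 < ε → ∃ a : ℝ,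
      ¬ Hit (G ε a)ᶜ κ w (fun n _ => w n * x)} ≤ ENNReal.ofReal 0 := by
    refine Pool.Agent.N84.MD.dim_le_of_forall le_rfl fun D hD0 => ?_
    have hsub : {x : ℝ | ¬ ∀ κ : ℝ, κ < 1 → ∀ ε : ℝ, 0 < ε → ∃ a : ℝ, ¬ Hit (G ε a)ᶜ κ w (fun n _ => w n * x)} ⊆
        ⋃ j : ℕ, ⋃ i : ℕ, {x : ℝ | ∀ a : ℝ, Hit (G (1 / ((i : ℝ) + 1)) a)ᶜ (1 - 1 / ((j : ℝ) + 1)) w (fun n _ => w n * x)} := by
      intro x hx
      rw [Set.mem_ofPred_eq] at hx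
      push Not at hx
      obtain ⟨κ, hκ, ε, hε, hx⟩ := hx
      obtain ⟨j, hj⟩ := exists_kap κ hκ
      obtain ⟨i, hi⟩ := exists_eps ε hε
      rw [Set.mem_iUnion]
      refine ⟨j, ?_⟩
      rw [Set.mem_iUnion]
      refine ⟨i, fun a => Frequently.mono (hx a) ?_⟩
      rintro n ⟨m, hm1, hm2⟩
      exact ⟨m, fun l => (hm1 l).trans (Real.rpow_le_rpow_of_exponent_le (hw n) hj), fun h => hm2 (hmono _ _ a hi h)⟩
    refine (dimH_mono hsub).trans ?_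
    rw [dimH_iUnion]
    refine iSup_le fun j => ?_
    rw [dimH_iUnion]
    refine iSup_le fun i => ?_
    have hj0 : (0 : ℝ) < 1 / ((j : ℝ) + 1) := by positivity
    have hi0 : (0 : ℝ) < 1 / ((i : ℝ) + 1) := by positivity
    obtain ⟨a, ha⟩ := hG _ hi0 (D * (1 / ((j : ℝ) + 1))) (by positivity)
    have h1 := gen_dil_one (G (1 / ((i : ℝ) + 1)) a)ᶜ (κ := 1 - 1 / ((j : ℝ) + 1)) (s := D * (1 / ((j : ℝ) + 1)))
      (τ := 0) (by positivity) ha (by linarith) le_rfl w hw hsum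
    rw [add_zero, sub_sub_cancel, mul_div_assoc, div_self hj0.ne', mul_one] at h1
    refine le_trans (dimH_mono ?_) h1
    intro x hx
    exact hx a
  simpa using hgoal

theorem zero_pow (G : ℝ → ℝ → Set (Fin 1 → ℤ))
    (hG : ∀ ε : ℝ, 0 < ε → ∀ s : ℝ, 0 < s → ∃ a : ℝ, Sparse (G ε a)ᶜ s)
    (hmono : ∀ ε ε' a : ℝ, ε ≤ ε' → G ε a ⊆ G ε' a) (Ξ : Set ℝ) (hΞ : Ξ.Countable) (hΞ0 : ∀ ξ ∈ Ξ, ξ ≠ 0)
    (w : ℕ → ℝ) (hw : ∀ n, 1 ≤ w n) (hlim : Tendsto (fun n : ℕ => w n / Real.log n) atTop atTop) :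
    dimH {α : ℝ | 1 < α ∧ ¬ ∀ ξ ∈ Ξ, ∀ κ : ℝ, κ < 1 → ∀ ε : ℝ, 0 < ε → ∃ a : ℝ,
      ¬ Hit (G ε a)ᶜ κ (fun n => α ^ w n) (fun n _ => ξ * α ^ w n)} = 0 := by
  refine le_antisymm ?_ bot_le
  have hgoal : dimH {α : ℝ | 1 < α ∧ ¬ ∀ ξ ∈ Ξ, ∀ κ : ℝ, κ < 1 → ∀ ε : ℝ, 0 < ε → ∃ a : ℝ,
      ¬ Hit (G ε a)ᶜ κ (fun n => α ^ w n) (fun n _ => ξ * α ^ w n)} ≤ ENNReal.ofReal 0 := by
    refine Pool.Agent.N84.MD.dim_le_of_forall le_rfl fun D hD0 => ?_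
    have hsub : {α : ℝ | 1 < α ∧ ¬ ∀ ξ ∈ Ξ, ∀ κ : ℝ, κ < 1 → ∀ ε : ℝ, 0 < ε → ∃ a : ℝ,
        ¬ Hit (G ε a)ᶜ κ (fun n => α ^ w n) (fun n _ => ξ * α ^ w n)} ⊆
        ⋃ ξ ∈ Ξ, ⋃ j : ℕ, ⋃ i : ℕ, {α : ℝ | 1 < α ∧ ∀ a : ℝ, Hit (G (1 / ((i : ℝ) + 1)) a)ᶜ (1 - 1 / ((j : ℝ) + 1))
          (fun n => α ^ w n) (fun n _ => ξ * α ^ w n)} := by
      rintro α ⟨hα, hx⟩
      push Not at hx
      obtain ⟨ξ, hξ, κ, hκ, ε, hε, hx⟩ := hx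
      obtain ⟨j, hj⟩ := exists_kap κ hκ
      obtain ⟨i, hi⟩ := exists_eps ε hε
      rw [Set.mem_iUnion₂]
      refine ⟨ξ, hξ, ?_⟩
      rw [Set.mem_iUnion]
      refine ⟨j, ?_⟩
      rw [Set.mem_iUnion]
      refine ⟨i, hα, fun a => Frequently.mono (hx a) ?_⟩
      rintro n ⟨m, hm1, hm2⟩
      refine ⟨m, fun l => (hm1 l).trans (Real.rpow_le_rpow_of_exponent_le ?_ hj), fun h => hm2 (hmono _ _ a hi h)⟩
      exact Real.one_le_rpow hα.le (by linarith [hw n])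
    refine (dimH_mono hsub).trans ?_
    rw [dimH_bUnion hΞ]
    refine iSup₂_le fun ξ hξ => ?_
    rw [dimH_iUnion]
    refine iSup_le fun j => ?_
    rw [dimH_iUnion]
    refine iSup_le fun i => ?_
    have hj0 : (0 : ℝ) < 1 / ((j : ℝ) + 1) := by positivity
    have hj1 : 1 / ((j : ℝ) + 1) ≤ 1 := by
      rw [div_le_one (by positivity)]
      linarith [(Nat.cast_nonneg j : (0 : ℝ) ≤ j)]
    have hi0 : (0 : ℝ) < 1 / ((i : ℝ) + 1) := by positivity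
    obtain ⟨a, ha⟩ := hG _ hi0 (D * (1 / ((j : ℝ) + 1))) (by positivity)
    have h1 := gen_pow (G (1 / ((i : ℝ) + 1)) a)ᶜ (κ := 1 - 1 / ((j : ℝ) + 1)) (s := D * (1 / ((j : ℝ) + 1)))
      (D := D) (by positivity) ha (by linarith) (by linarith) hD0.le (by rw [sub_sub_cancel]) ξ (hΞ0 ξ hξ) w hw hlim
    refine le_trans (dimH_mono ?_) h1
    rintro α ⟨h2, h3⟩
    exact ⟨h2, h3 a⟩
  simpa using hgoal

end Pool.Agent.U265.GM
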