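import Pool.Agent.U265.GM.Two
import Pool.Agent.Helper259.HtExt

/-!
# Metric theorems for rational points of projective space (helper265)

For `ε > 0` and `B ≥ 1` let `Q N y` be true for a suitable level `N ≤ C B ^ ε` and all points `y` of `ℙ ^ n (K)` of height at most
`B` but `C B ^ ε` exceptions. For all real vectors `v` but a set of Hausdorff dimension zero: for all `δ > 0`, `κ < 1` and all large
`m` there is `N ≤ w_m ^ δ` such that `Q N [z]` holds for all primitive integral vectors `z` with `|z - w_m v| ≤ w_m ^ κ`.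
-/

set_option autoImplicit false

namespace Pool.Agent.U265.GM

open Finset Filter Topology
open scoped ENNReal LinearAlgebra.Projectivization

/-- `y` is the point with the homogeneous coordinates `z` -/
def IsPoint {K : Type} [Field K] {n : ℕ} (y : ℙ K (Fin (n + 1) → K)) (z : Fin (n + 1) → ℤ) : Prop :=
  ∃ h : (fun i => (z i : K)) ≠ 0, y = Projectivization.mk K (fun i => (z i : K)) h

/-- for all large `m` there is a level `N ≤ W_m ^ δ` with `Q N [z]` for all primitive `z` near `W_m v` -/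
def NearLevel {K : Type} [Field K] {n : ℕ} (Q : ℕ → ℙ K (Fin (n + 1) → K) → Prop) (δ κ : ℝ) (W : ℕ → ℝ)
    (v : Fin (n + 1) → ℝ) : Prop :=
  ∀ᶠ m : ℕ in atTop, ∃ N : ℕ, 1 ≤ N ∧ (N : ℝ) ≤ W m ^ δ ∧ ∀ z : Fin (n + 1) → ℤ, univ.gcd z = 1 →
    (∀ i, |(z i : ℝ) - W m * v i| ≤ W m ^ κ) → ∀ y, IsPoint y z → Q N y

/-- few exceptions for a level `N ≤ C B ^ ε` -/
def FewLevel {K : Type} [Field K] [NumberField K] {n : ℕ} (Q : ℕ → ℙ K (Fin (n + 1) → K) → Prop) : Prop :=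
  ∀ ε : ℝ, 0 < ε → ∃ C : ℝ, ∀ B : ℝ, 1 ≤ B → ∃ N : ℕ, 1 ≤ N ∧ (N : ℝ) ≤ C * B ^ ε ∧
    ∃ Z : Finset (ℙ K (Fin (n + 1) → K)), (Z.card : ℝ) ≤ C * B ^ ε ∧
      ∀ y : ℙ K (Fin (n + 1) → K), y.mulHeight ≤ B → y ∉ Z → Q N y

lemma eq_or_neg_of_cross {n : ℕ} {z z' : Fin (n + 1) → ℤ} (hz : univ.gcd z = 1) (hz' : univ.gcd z' = 1)
    (hcross : ∀ i j, z i * z' j = z j * z' i) : z = z' ∨ z = -z' := by
  obtain ⟨f, hf⟩ := Finset.gcd_eq_sum_mul (univ : Finset (Fin (n + 1))) z'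
  rw [hz'] at hf
  set c := ∑ j, z j * f j with hc
  have hzc : ∀ i, z i = c * z' i := by
    intro i
    calc z i = z i * ∑ j, z' j * f j := by rw [← hf, mul_one]
      _ = ∑ j, z i * (z' j * f j) := by rw [mul_sum]
      _ = ∑ j, (z j * f j) * z' i := by
          refine sum_congr rfl fun j _ => ?_
          rw [← mul_assoc, hcross i j]
          ring
      _ = c * z' i := by rw [hc, sum_mul]
  have h5 : (univ : Finset (Fin (n + 1))).gcd z = normalize c * univ.gcd z' := by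
    rw [← Finset.gcd_mul_left]
    exact Finset.gcd_congr rfl fun i _ => hzc i
  rw [hz, hz', mul_one] at h5
  have h6 : IsUnit c := by
    rw [← associated_one_iff_isUnit]
    exact (normalize_associated c).symm.trans (by rw [← h5]; exact Associated.refl _)
  rcases Int.isUnit_iff.1 h6 with h7 | h7
  · left
    funext i
    rw [hzc i, h7, one_mul]
  · right
    funext i
    rw [hzc i, h7, Pi.neg_apply, neg_one_mul]

section
variable {K : Type} [Field K] [NumberField K] {n : ℕ}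

lemma ne_zero_of_gcd {z : Fin (n + 1) → ℤ} (hz : univ.gcd z = 1) : (fun i => (z i : K)) ≠ 0 := by
  intro h
  have h1 : z = 0 := by
    funext i
    have := congrFun h i
    simpa using this
  rw [h1, Finset.gcd_eq_zero_iff.mpr (by simp)] at hz
  exact zero_ne_one hz

lemma height_point {z : Fin (n + 1) → ℤ} (hz : univ.gcd z = 1) {X : ℕ} (hX : ∀ i, |z i| ≤ X)
    (h : (fun i => (z i : K)) ≠ 0) :
    (Projectivization.mk K (fun i => (z i : K)) h).mulHeight ≤ (X : ℝ) ^ Module.finrank ℚ K := by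
  rw [Projectivization.mulHeight_mk]
  have h1 := Pool.Agent.Helper259.HtExt.mulHeight_ext (K := ℚ) (L := K) (fun i => (z i : ℚ))
  have h2 : (fun i => algebraMap ℚ K ((fun i => (z i : ℚ)) i)) = fun i => (z i : K) := by
    funext i
    simp
  rw [h2] at h1
  rw [h1]
  refine pow_le_pow_left₀ (Height.mulHeight_pos _).le ?_ _
  have h3 := Rat.mulHeight_eq_max_abs_of_gcd_eq_one hz
  have h4 : (fun i => (z i : ℚ)) = ((↑) : ℤ → ℚ) ∘ z := rfl
  rw [h4, h3]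
  have h5 : (⨆ i, |z i|) ≤ (X : ℤ) := ciSup_le hX
  exact_mod_cast h5

omit [NumberField K] in
lemma eq_or_neg {z z' : Fin (n + 1) → ℤ} [CharZero K] (hz : univ.gcd z = 1) (hz' : univ.gcd z' = 1)
    (h : (fun i => (z i : K)) ≠ 0) (h' : (fun i => (z' i : K)) ≠ 0)
    (heq : Projectivization.mk K (fun i => (z i : K)) h = Projectivization.mk K (fun i => (z' i : K)) h') :
    z = z' ∨ z = -z' := by
  rw [Projectivization.mk_eq_mk_iff'] at heq
  obtain ⟨a, ha⟩ := heq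
  refine eq_or_neg_of_cross hz hz' fun i j => ?_
  have h1 := congrFun ha i
  have h2 := congrFun ha j
  simp only [Pi.smul_apply, smul_eq_mul] at h1 h2
  have h3 : (z i : K) * z' j = z j * z' i := by
    rw [← h1, ← h2]
    ring
  exact_mod_cast h3

/-- the exceptional vectors -/
def BadVec (Q : ℙ K (Fin (n + 1) → K) → Prop) : Set (Fin (n + 1) → ℤ) :=
  {z | univ.gcd z = 1 ∧ ∃ y, IsPoint y z ∧ ¬ Q y}

open scoped Classical in
lemma card_bad {Q : ℙ K (Fin (n + 1) → K) → Prop} {X : ℕ} {Z : Finset (ℙ K (Fin (n + 1) → K))}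
    (hZ : ∀ y : ℙ K (Fin (n + 1) → K), y.mulHeight ≤ (X : ℝ) ^ Module.finrank ℚ K → y ∉ Z → Q y)
    (T : Finset (Fin (n + 1) → ℤ)) (hT : ∀ z ∈ T, (∀ i, |z i| ≤ X) ∧ z ∈ BadVec Q) : T.card ≤ 2 * Z.card := by
  classical
  have hne : (fun _ : Fin (n + 1) => (1 : K)) ≠ 0 := fun h => one_ne_zero (congrFun h 0)
  let f : (Fin (n + 1) → ℤ) → ℙ K (Fin (n + 1) → K) := fun z =>
    if h : (fun i => (z i : K)) ≠ 0 then Projectivization.mk K (fun i => (z i : K)) h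
    else Projectivization.mk K (fun _ => (1 : K)) hne
  have hf : ∀ z ∈ T, ∃ h, f z = Projectivization.mk K (fun i => (z i : K)) h := by
    intro z hz
    have h := ne_zero_of_gcd (K := K) (hT z hz).2.1
    exact ⟨h, dif_pos h⟩
  have h1 : T.card ≤ 2 * (T.image f).card := by
    refine card_le_mul_card_image T 2 fun y hy => ?_
    obtain ⟨z0, hz0, rfl⟩ := mem_image.1 hy
    refine (card_le_card (t := {z0, -z0}) ?_).trans card_le_two
    intro z hz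
    rw [mem_filter] at hz
    obtain ⟨h2, h3⟩ := hf z hz.1
    obtain ⟨h4, h5⟩ := hf z0 hz0
    have h6 := hz.2
    rw [h3, h5] at h6
    rcases eq_or_neg (hT z hz.1).2.1 (hT z0 hz0).2.1 h2 h4 h6 with h7 | h7
    · rw [h7]
      exact mem_insert_self _ _
    · rw [h7]
      exact mem_insert_of_mem (mem_singleton_self _)
  refine h1.trans (Nat.mul_le_mul_left 2 (card_le_card ?_))
  intro y hy
  obtain ⟨z, hz, rfl⟩ := mem_image.1 hy
  obtain ⟨hzX, hz1, y', ⟨h2, rfl⟩, hy2⟩ := hT z hz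
  obtain ⟨h3, h4⟩ := hf z hz
  rw [h4]
  by_contra h5
  exact hy2 (hZ _ (height_point hz1 hzX h3) h5)

lemma tendsto_of_summable {w : ℕ → ℝ} (hw : ∀ m, 1 ≤ w m) {t : ℝ} (ht : 0 < t) (hs : Summable fun m => w m ^ (-t)) :
    Tendsto w atTop atTop := by
  have h1 := hs.tendsto_atTop_zero
  rw [tendsto_atTop]
  intro b
  have hb : 0 < (max b 1) ^ (-t) := Real.rpow_pos_of_pos (by positivity) _
  filter_upwards [h1.eventually_lt_const hb] with m hm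
  by_contra h2
  push Not at h2
  have h3 : w m ≤ max b 1 := h2.le.trans (le_max_left _ _)
  have h4 := Real.rpow_le_rpow_of_nonpos (show 0 < w m by linarith [hw m]) h3 (show -t ≤ 0 by linarith)
  linarith

theorem proj_dil {ι : Type*} [Countable ι] (Q : ι → ℕ → ℙ K (Fin (n + 1) → K) → Prop) (hQ : ∀ i, FewLevel (Q i)) {κ τ : ℝ}
    (hκ : κ < 1) (hτ : 0 ≤ τ)
    (w : ℕ → ℝ) (hw : ∀ m, 1 ≤ w m) (hsum : ∀ t : ℝ, τ < t → Summable fun m => w m ^ (-t)) :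
    dimH {v : Fin (n + 1) → ℝ | ¬ ∀ i, ∀ δ : ℝ, 0 < δ → NearLevel (Q i) δ κ w v} ≤ ENNReal.ofReal (τ / (1 - κ)) := by
  have hκ' : 0 < 1 - κ := by linarith
  have hlim : Tendsto w atTop atTop :=
    tendsto_of_summable hw (show 0 < τ + 1 by linarith) (hsum (τ + 1) (by linarith))
  refine Pool.Agent.N84.MD.dim_le_of_forall (div_nonneg hτ hκ'.le) fun D hD => ?_
  rw [div_lt_iff₀ hκ'] at hD
  have hD0 : 0 < D := by
    by_contra h
    push Not at h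
    nlinarith
  set g := Module.finrank ℚ K with hg
  have hg1 : 1 ≤ g := Module.finrank_pos
  have hg1' : (1 : ℝ) ≤ g := by exact_mod_cast hg1
  have hex : ∀ j : ℕ, ∃ ε : ℝ, 0 < ε ∧ g * ε + τ < D * (1 - κ) ∧ g * ε < 1 / ((j : ℝ) + 1) := by
    intro j
    have hj0 : (0 : ℝ) < 1 / ((j : ℝ) + 1) := by positivity
    have hm : 0 < min (D * (1 - κ) - τ) (1 / ((j : ℝ) + 1)) := lt_min (by linarith) hj0
    refine ⟨min (D * (1 - κ) - τ) (1 / ((j : ℝ) + 1)) / (2 * g), by positivity, ?_⟩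
    have h1 : (g : ℝ) * (min (D * (1 - κ) - τ) (1 / ((j : ℝ) + 1)) / (2 * g)) =
        min (D * (1 - κ) - τ) (1 / ((j : ℝ) + 1)) / 2 := by
      field_simp
    rw [h1]
    have h2 := min_le_left (D * (1 - κ) - τ) (1 / ((j : ℝ) + 1))
    have h3 := min_le_right (D * (1 - κ) - τ) (1 / ((j : ℝ) + 1))
    exact ⟨by linarith, by linarith⟩
  choose ε hε0 hε1 hε2 using hex
  have hQ' : ∀ (i : ι) (j : ℕ), ∃ C : ℝ, ∀ B : ℝ, 1 ≤ B → ∃ N : ℕ, 1 ≤ N ∧ (N : ℝ) ≤ C * B ^ ε j ∧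
      ∃ Z : Finset (ℙ K (Fin (n + 1) → K)), (Z.card : ℝ) ≤ C * B ^ ε j ∧
        ∀ y : ℙ K (Fin (n + 1) → K), y.mulHeight ≤ B → y ∉ Z → Q i N y := fun i j => hQ i (ε j) (hε0 j)
  choose C hC using hQ'
  have hN' : ∀ (i : ι) (j : ℕ) (X : ℕ), ∃ N : ℕ, 1 ≤ X → 1 ≤ N ∧ (N : ℝ) ≤ C i j * ((X : ℝ) ^ g) ^ ε j ∧
      ∃ Z : Finset (ℙ K (Fin (n + 1) → K)), (Z.card : ℝ) ≤ C i j * ((X : ℝ) ^ g) ^ ε j ∧
        ∀ y : ℙ K (Fin (n + 1) → K), y.mulHeight ≤ (X : ℝ) ^ g → y ∉ Z → Q i N y := by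
    intro i j X
    by_cases hX : 1 ≤ X
    · have hX1 : (1 : ℝ) ≤ X := by exact_mod_cast hX
      obtain ⟨N, hN⟩ := hC i j ((X : ℝ) ^ g) (one_le_pow₀ hX1)
      exact ⟨N, fun _ => hN⟩
    · exact ⟨0, fun h => absurd h hX⟩
  choose N hN using hN'
  have hsub : {v : Fin (n + 1) → ℝ | ¬ ∀ i, ∀ δ : ℝ, 0 < δ → NearLevel (Q i) δ κ w v} ⊆
      ⋃ i : ι, ⋃ j : ℕ, ⋃ R : ℕ, {v : Fin (n + 1) → ℝ | (∀ l, |v l| ≤ R) ∧ ∃ᶠ m : ℕ in atTop, ∃ z : Fin (n + 1) → ℤ,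
        (∀ l, |(z l : ℝ) - w m * v l| ≤ w m ^ κ) ∧
          z ∈ (fun X : ℕ => BadVec (Q i (N i j X))) ⌈((R : ℝ) + 1) * w m⌉₊} := by
    intro v hv
    rw [Set.mem_ofPred_eq] at hv
    push Not at hv
    obtain ⟨i, δ, hδ, hv⟩ := hv
    obtain ⟨j, hj⟩ := exists_eps δ hδ
    obtain ⟨R, hR⟩ : ∃ R : ℕ, ∀ l, |v l| ≤ R := by
      obtain ⟨R, hR⟩ := exists_nat_ge (∑ l, |v l|)
      exact ⟨R, fun l => (single_le_sum (f := fun l => |v l|) (fun l _ => abs_nonneg _) (mem_univ l)).trans hR⟩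
    rw [Set.mem_iUnion]
    refine ⟨i, ?_⟩
    rw [Set.mem_iUnion]
    refine ⟨j, ?_⟩
    rw [Set.mem_iUnion]
    refine ⟨R, hR, ?_⟩
    have hR0 : (0 : ℝ) ≤ R := Nat.cast_nonneg R
    have hgap : 0 < 1 / ((j : ℝ) + 1) - g * ε j := by linarith [hε2 j]
    have hbig : ∀ᶠ m : ℕ in atTop, max (C i j) 0 * ((R : ℝ) + 2) ^ ((g : ℝ) * ε j) ≤ w m ^ (1 / ((j : ℝ) + 1) - g * ε j) :=
      ((tendsto_rpow_atTop hgap).comp hlim).eventually_ge_atTop _
    unfold NearLevel at hv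
    rw [not_eventually] at hv
    refine (hv.and_eventually hbig).mono ?_
    rintro m ⟨hm1, hm2⟩
    push Not at hm1
    have hwm := hw m
    have hwm0 : 0 < w m := by linarith
    have hceil : 1 ≤ ⌈((R : ℝ) + 1) * w m⌉₊ := by
      have h1 : (1 : ℝ) ≤ ⌈((R : ℝ) + 1) * w m⌉₊ := by
        refine le_trans ?_ (Nat.le_ceil _)
        nlinarith
      exact_mod_cast h1
    obtain ⟨h1, h2, -⟩ := hN i j _ hceil
    have h3 : (⌈((R : ℝ) + 1) * w m⌉₊ : ℝ) ≤ ((R : ℝ) + 2) * w m := by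
      refine (Nat.ceil_lt_add_one (by positivity)).le.trans ?_
      nlinarith
    have h4 : ((⌈((R : ℝ) + 1) * w m⌉₊ : ℝ) ^ g) ^ ε j ≤ (((R : ℝ) + 2) * w m) ^ ((g : ℝ) * ε j) := by
      rw [← Real.rpow_natCast, ← Real.rpow_mul (Nat.cast_nonneg _)]
      exact Real.rpow_le_rpow (Nat.cast_nonneg _) h3 (mul_nonneg (by linarith) (hε0 j).le)
    have h5 : (N i j ⌈((R : ℝ) + 1) * w m⌉₊ : ℝ) ≤ w m ^ δ := by
      calc (N i j ⌈((R : ℝ) + 1) * w m⌉₊ : ℝ) ≤ C i j * ((⌈((R : ℝ) + 1) * w m⌉₊ : ℝ) ^ g) ^ ε j := h2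
        _ ≤ max (C i j) 0 * ((⌈((R : ℝ) + 1) * w m⌉₊ : ℝ) ^ g) ^ ε j :=
            mul_le_mul_of_nonneg_right (le_max_left _ _) (Real.rpow_nonneg (by positivity) _)
        _ ≤ max (C i j) 0 * (((R : ℝ) + 2) * w m) ^ ((g : ℝ) * ε j) :=
            mul_le_mul_of_nonneg_left h4 (le_max_right _ _)
        _ = max (C i j) 0 * ((R : ℝ) + 2) ^ ((g : ℝ) * ε j) * w m ^ ((g : ℝ) * ε j) := by
            rw [Real.mul_rpow (by linarith) hwm0.le, mul_assoc]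
        _ ≤ w m ^ (1 / ((j : ℝ) + 1) - g * ε j) * w m ^ ((g : ℝ) * ε j) :=
            mul_le_mul_of_nonneg_right hm2 (Real.rpow_nonneg hwm0.le _)
        _ = w m ^ (1 / ((j : ℝ) + 1)) := by
            rw [← Real.rpow_add hwm0, sub_add_cancel]
        _ ≤ w m ^ δ := Real.rpow_le_rpow_of_exponent_le hwm hj
    obtain ⟨z, hz1, hz2, y, hy1, hy2⟩ := hm1 _ h1 h5
    exact ⟨z, hz2, hz1, y, hy1, hy2⟩
  refine (dimH_mono hsub).trans ?_
  rw [dimH_iUnion]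
  refine iSup_le fun i => ?_
  rw [dimH_iUnion]
  refine iSup_le fun j => ?_
  rw [dimH_iUnion]
  refine iSup_le fun R => ?_
  have hgε : 0 ≤ (g : ℝ) * ε j := mul_nonneg (by linarith) (hε0 j).le
  refine Pool.Agent.U265.MS.dil_dim (fun X : ℕ => BadVec (Q i (N i j X))) (s := g * ε j) (τ := τ)
    (K := 2 * max (C i j) 0) hgε hκ (mul_nonneg zero_le_two (le_max_right _ _)) hD0 (hε1 j) ?_ w hw hsum R
  intro X hX T hT
  obtain ⟨-, -, Z, hZ1, hZ2⟩ := hN i j X hX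
  have h1 := card_bad hZ2 T hT
  have h2 : (T.card : ℝ) ≤ 2 * Z.card := by exact_mod_cast h1
  have h3 : C i j * ((X : ℝ) ^ g) ^ ε j ≤ max (C i j) 0 * ((X : ℝ) ^ g) ^ ε j :=
    mul_le_mul_of_nonneg_right (le_max_left _ _) (Real.rpow_nonneg (by positivity) _)
  have h4 : ((X : ℝ) ^ g) ^ ε j = (X : ℝ) ^ ((g : ℝ) * ε j) := by
    rw [← Real.rpow_natCast, ← Real.rpow_mul (Nat.cast_nonneg _)]
  rw [h4] at h3 hZ1
  linarith

theorem proj_zero {ι : Type*} [Countable ι] (Q : ι → ℕ → ℙ K (Fin (n + 1) → K) → Prop) (hQ : ∀ i, FewLevel (Q i))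
    (w : ℕ → ℝ) (hw : ∀ m, 1 ≤ w m) (hsum : ∀ t : ℝ, 0 < t → Summable fun m => w m ^ (-t)) :
    dimH {v : Fin (n + 1) → ℝ | ¬ ∀ κ : ℝ, κ < 1 → ∀ i, ∀ δ : ℝ, 0 < δ → NearLevel (Q i) δ κ w v} = 0 := by
  refine le_antisymm ?_ bot_le
  have hsub : {v : Fin (n + 1) → ℝ | ¬ ∀ κ : ℝ, κ < 1 → ∀ i, ∀ δ : ℝ, 0 < δ → NearLevel (Q i) δ κ w v} ⊆
      ⋃ l : ℕ, {v : Fin (n + 1) → ℝ | ¬ ∀ i, ∀ δ : ℝ, 0 < δ → NearLevel (Q i) δ (1 - 1 / ((l : ℝ) + 1)) w v} := by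
    intro v hv
    rw [Set.mem_ofPred_eq] at hv
    push Not at hv
    obtain ⟨κ, hκ, i, δ, hδ, hi⟩ := hv
    obtain ⟨l, hl⟩ := exists_kap κ hκ
    rw [Set.mem_iUnion]
    refine ⟨l, fun h => hi ?_⟩
    refine (h i δ hδ).mono ?_
    rintro m ⟨N, h1, h2, h3⟩
    exact ⟨N, h1, h2, fun z hz hz2 => h3 z hz fun j =>
      (hz2 j).trans (Real.rpow_le_rpow_of_exponent_le (hw m) hl)⟩
  refine (dimH_mono hsub).trans ?_
  rw [dimH_iUnion]
  refine iSup_le fun l => ?_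
  have hl0 : (0 : ℝ) < 1 / ((l : ℝ) + 1) := by positivity
  have h1 := proj_dil Q hQ (κ := 1 - 1 / ((l : ℝ) + 1)) (τ := 0) (by linarith) le_rfl w hw hsum
  simpa using h1

end

end Pool.Agent.U265.GM
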